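import Mathlib
import Pool.Agent.H731R2.Split

/-!
# Decomposition of measurable characteristic functions on an interval

Idea of the proof: for a test function `φ` supported in `(-A, A)` the integral `∫ φ f` is the
average over `x ∈ [0, 1/N)` of the Riemann sums `N⁻¹ ∑ φ(x + k/N) f(x + k/N)`, each of which is a
value of the functional `Φ_f` at an almost periodic polynomial whose sup norm is, by Poisson
summation, at most `sup |φ^| + O(N⁻²)`. Hence `|∫ φ f| ≤ C sup |φ^|`, and the Hahn-Banach and Riesz
theorems give a finite complex measure whose Fourier transform equals `f` almost everywhere.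
-/

set_option autoImplicit false

open MeasureTheory Pool.Agent.H731R2

/-- Let `0 < A ≤ ∞`. Every Lebesgue measurable `f ∈ R_A` is a sum `f = f_c + f_m` with
`f_c ∈ R_A` continuous and `f_m ∈ R_A` Lebesgue measurable and zero almost everywhere. -/
theorem Pool.Agent.Results.MP_410e25_an.Splitting.result (A : EReal) (_hA : 0 < A)
    (f : Dom A → ℂ) (hf : MemR f) (hm : AEMeasurable f (leb A)) :
    ∃ fc fm : Dom A → ℂ, (MemR fc ∧ Continuous fc) ∧ (MemR fm ∧ AEMeasurable fm (leb A)) ∧
      (∀ᵐ y ∂(leb A), fm y = 0) ∧ ∀ y, f y = fc y + fm y := by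
  obtain ⟨fc, fm, h1, h2, h3, h4, h5, h6⟩ := split hf hm
  exact ⟨fc, fm, ⟨h1, h2⟩, ⟨h3, h4⟩, h5, h6⟩
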